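import Pool.Agent.Helper78.TR.Defs
import Pool.Agent.Helper98.EM.MPart

/-! TR-B: the part of a number composed of the primes of `m`. -/

set_option autoImplicit false

namespace Pool.Agent.Helper98.TR

open Finset Pool.Agent.Helper78.TR

/-- TR-B1 -/
theorem mp_spec (m q : ℕ) (hm : 0 < m) (hq : 0 < q) :
    0 < mp m q ∧ mp m q ∣ q ∧ (q / mp m q).Coprime m :=
  ⟨EM.mp_pos m q, EM.mp_dvd m q, EM.div_coprime m q hm.ne' hq.ne'⟩

/-- TR-B2 -/
theorem dvd_iff (m N q t : ℕ) (hm : 0 < m) (hN : N.Coprime m) (hq : 0 < q) (ht : 0 < t) :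
    q ∣ N * mp m t ↔ q / mp m q ∣ N ∧ mp m q ∣ t :=
  EM.dvd_mul_mp hm.ne' hN ht.ne' hq.ne'

/-- TR-B3 -/
theorem mp_one_iff (m t : ℕ) (hm : 0 < m) (ht : 0 < t) : mp m t = 1 ↔ t.Coprime m :=
  EM.mp_eq_one hm.ne' ht.ne'

/-- TR-B4 -/
theorem count_dvd (Q q1 : ℕ) (h : 0 < q1) (h' : q1 ≤ Q) :
    (((Icc 1 Q.factorial).filter (fun t => q1 ∣ t)).card : ℝ) = (Q.factorial : ℝ) / q1 := by
  rw [EM.card_mult, Nat.cast_div (Nat.dvd_factorial h h') (by exact_mod_cast h.ne')]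

/-- TR-B5 -/
theorem count_coprime (T m : ℕ) (hm : 0 < m) (h : m ∣ T) :
    (((Icc 1 T).filter (fun t => t.Coprime m)).card : ℝ) = T * ((m.totient : ℝ) / m) := by
  obtain ⟨c, rfl⟩ := h
  rw [EM.card_coprime]
  have hmR : (m : ℝ) ≠ 0 := by exact_mod_cast hm.ne'
  push_cast
  field_simp

end Pool.Agent.Helper98.TR
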